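import Mathlib
import Pool.Agent.R408.HSM.Core

set_option autoImplicit false

/-!
# Cyclotomic integers of bounded size on hyperbolic varieties

(1) For all natural numbers `d`, `r` and all real numbers `B` there is a number `M` such that for
every number field `k`, every embedding `σ` of `k` in `ℂ`, every `n` and every closed subset `X` of
projective `n`-space over `k` which is given by forms of degree at most `d` and such that `X_σ`
contains no nonconstant rational curve, in particular for every `X` such that `X_σ` is Brody
(equivalently Kobayashi) hyperbolic, the following holds. For every extension field `L` of `k` and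
all vectors `v_1, …, v_r` in `L ^ (n + 1)`, at most `M` points of `X(L)` have homogeneous
coordinates `α_1 v_1 + … + α_r v_r` with cyclotomic integers `α_j ∈ L` of arbitrary conductors such
that the mean square of the absolute values of the complex conjugates of `α_j` is at most `B`.

For the unit vectors `v_j` and `r = n + 1`: over the maximal cyclotomic extension `L` of `k`, an
infinite extension, at most `M` points of `X(L)` have homogeneous coordinates which are cyclotomic
integers of house at most `√B`, for all hyperbolic `X` of degree at most `d` at the same time.

(2) Conversely, if `X_σ` contains a nonconstant rational curve, then for some `r` there are vectors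
`v_1, …, v_r` of algebraic numbers such that infinitely many points of `X` are combinations of the
`v_j` with cyclotomic integers whose conjugates have mean square at most `1`.

Method: by Loxton's theorem (library folder `Helper781/CycHouse` of the starting repository) the
`α_j` are sums of a bounded number of roots of unity; then the uniform bound for multipliers of
small height (library folder `Y215/SP`), for varieties without rational curves.
-/

namespace Pool.Agent.Results.MP_627a61_nt.CyclotomicIntegers

open MvPolynomial Pool.Agent.Helper259.AbsHt Pool.Agent.H533R3.SL Pool.Agent.Y215.SP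
  Pool.Agent.TH717.GO Pool.Agent.H458.Sp Pool.Agent.R408.HSM

theorem result :
    (∀ (d r : ℕ) (B : ℝ), ∃ M : ℕ, ∀ (k : Type) [Field k] [NumberField k] (σ : k →+* ℂ)
      (n N : ℕ) (P : Fin N → MvPolynomial (Fin (n + 1)) k),
      (∀ i, ∃ e, e ≤ d ∧ (P i).IsHomogeneous e) →
      (BrodyHyperbolic ((MvPolynomial.map σ) '' Set.range P) → NoRatC σ (Set.range P)) ∧
      (NoRatC σ (Set.range P) →
        ∀ (L : Type) [Field L] [Algebra k L] (v : Fin r → Fin (n + 1) → L),
          (cycPts P B v).encard ≤ M)) ∧
    (∀ (k : Type) [Field k] [NumberField k] (σ : k →+* ℂ) (n N : ℕ)
      (P : Fin N → MvPolynomial (Fin (n + 1)) k), ¬ NoRatC σ (Set.range P) →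
      ∃ (r : ℕ) (_ : Algebra k Qbar) (v : Fin r → Fin (n + 1) → Qbar),
        (cycPts P 1 v).Infinite) := by
  refine ⟨fun d r B => ?_, fun k _ _ σ n N P h => cyc_conv σ P h⟩
  obtain ⟨M, hM⟩ := cyc_bound d r B
  refine ⟨M, fun k _ _ σ n N P hP => ⟨?_, ?_⟩⟩
  · exact brody_noRat σ P fun i => (hP i).imp fun e he => he.2
  · exact fun hno => hM k σ n N P hP hno

end Pool.Agent.Results.MP_627a61_nt.CyclotomicIntegers
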