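import Mathlib
import Pool.Agent.R343.LP2

set_option autoImplicit false

/-!
# Points of small Lempel-Ziv complexity on hyperbolic varieties

Let `X` be a closed subvariety of projective `n`-space over a number field `k`, given by forms `FF`
with coefficients in `𝓞 k`, of degree at most `d` and with sum of the houses of the coefficients at
most `A`.

A word `a_0 a_1 … a_(L-1)` of digit vectors `a_j ∈ K ^ (n + 1)` represents in the base `t ∈ K` the
point with homogeneous coordinates `∑ t ^ (L - 1 - j) a_j`. Every point has such representations, for
instance the simultaneous expansions of integral coordinates in an integral base. The word has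
Lempel-Ziv complexity at most `z` if it is the concatenation of `z` phrases, each of which is a
single letter or a copy of a block that begins further to the left (the block may overlap the
phrase).

(1) If `X` is Brody (equivalently Kobayashi) hyperbolic for one embedding of `k` in `ℂ`, then `X`
has no nonconstant rational curve over any number field `K ⊇ k`.

(2) If `X` has no such curve, then for all number fields `K ⊇ k`, all `t ∈ K` which are not roots
of unity and all words of any length with Lempel-Ziv complexity at most `z` which represent a point
`x` of `X`: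

  `h(x) ≤ (1 + 8 (4 d) ^ (6 ^ z)) (d h(a) + log (A 6 ^ (z d)))`

where `h` is the absolute logarithmic height and `h(a)` is the height of the tuple of all digits
which occur. The bound does not depend on `K`, `t`, the length of the word and `n`. In particular
for all `K`, `z`, `B` only finitely many points of `X(K)` are represented by words with digits of
height at most `B` and complexity at most `z`, in all bases together.

(3) The absence of nonconstant rational curves is equivalent to such a bound.

Method: in a copied phrase with offset `p` the values `P(m)` of the prefixes satisfy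
`P(m) - P(m - p) = t ^ l (P(c) - P(c - p))`, `c` the beginning of the phrase, `l = m - c`; so after
multiplication by `t ^ p - 1` the value `P(m)` is a combination of six earlier values with powers of
`t` as coefficients, and the value of a word with `z` phrases becomes a sum of `6 ^ z` digits times
powers of `t`, to which the bound for sparse points of the library folder `TH409/SH` is applied.
-/

namespace Pool.Agent.Results.MP_627a61_nt.LempelZivPoints

open NumberField MvPolynomial Pool.Agent.H458.Sp Pool.Agent.TH409.SH Pool.Agent.R343.LP

theorem result (k : Type) [Field k] [NumberField k] (n : ℕ)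
    (FF : Set (MvPolynomial (Fin (n + 1)) (𝓞 k))) (d : ℕ) (hd : 1 ≤ d) (A : ℝ) (hA : 1 ≤ A)
    (hFF : ∀ F ∈ FF, (∃ e, e ≤ d ∧ F.IsHomogeneous e) ∧ nrm F ≤ A) :
    (∀ σ : k →+* ℂ,
      BrodyHyperbolic ((MvPolynomial.map (σ.comp (algebraMap (𝓞 k) k))) '' FF) →
      NoRatCurve FF) ∧
    (NoRatCurve FF → ∀ z : ℕ,
      (∀ (K : Type) [Field K] [NumberField K] [Algebra k K] (t : K) (L : ℕ)
        (a : ℕ → Fin (n + 1) → K) (x : Fin (n + 1) → K), (∀ p, 0 < p → t ^ p ≠ 1) →
        LZ a L z → Represents t a L x → IsZero FF x →
        ah K x ≤ (1 + 8 * (4 * d) ^ (6 ^ z)) *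
          (d * wordHeight K a L + Real.log (A * 6 ^ (z * d)))) ∧
      ∀ (K : Type) [Field K] [NumberField K] [Algebra k K] (B : ℝ),
        {P : Projectivization K (Fin (n + 1) → K) | ∃ (t : K) (L : ℕ)
          (a : ℕ → Fin (n + 1) → K) (x : Fin (n + 1) → K) (h : x ≠ 0),
          P = Projectivization.mk K x h ∧ (∀ p, 0 < p → t ^ p ≠ 1) ∧ LZ a L z ∧
          Represents t a L x ∧ IsZero FF x ∧ wordHeight K a L ≤ B}.Finite) ∧
    (NoRatCurve FF ↔ LZBounded FF) :=
  ⟨fun σ hyp => brody_noRat σ FF (fun F hF => by
      obtain ⟨⟨e, _, he⟩, _⟩ := hFF F hF
      exact ⟨e, he⟩) hyp,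
    fun hno z => ⟨fun K _ _ _ t L a x ht hLZ hx hz =>
        lz_bound k n FF d hd A hA hFF hno z K t L a x ht hLZ hx hz,
      fun K _ _ _ B => lz_finite k n FF d hd A hA hFF hno z K B⟩,
    lz_iff k n FF d hd A hA hFF⟩

end Pool.Agent.Results.MP_627a61_nt.LempelZivPoints
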