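import Mathlib
import Pool.Agent.R408.SML.Orb

set_option autoImplicit false

/-!
# The theorem of Skolem, Mahler and Lech on hyperbolic varieties

Let `X` be the closed subset of projective `n`-space over a number field `k` given by the forms
`P_i`, and let `σ` be an embedding of `k` in `ℂ`.

(1) If `X_σ` is Brody (equivalently Kobayashi) hyperbolic, it contains no nonconstant rational
curve.

(2) The following are equivalent.

* `X_σ` contains no nonconstant rational curve.
* `SequencesMeetFinitely`: let `Γ` be any finitely generated group of algebraic numbers, `a(m)`,
  `m ∈ I`, any family of algebraic numbers, `p_1, …, p_r` any vectors of polynomials in one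
  variable, and `u_1, …, u_r` ANY functions from `I` to the division hull of `Γ` such that each
  ratio `u_i / u_j` either takes only finitely many values, or for each `C` satisfies
  `h(u_i(m) / u_j(m)) > C (1 + h(a(m)))` for all but finitely many `m` (`Separated`). Then only
  finitely many points of `X` have homogeneous coordinates `∑ u_j(m) p_j(a(m))`, `m ∈ I`.
* `OrbitsMeetFinitely`: for all `r`, all invertible matrices `A` of size `r`, all matrices `M` with
  `n + 1` rows and all vectors `v`, over the algebraic numbers, only finitely many points of `X`
  have homogeneous coordinates `M A^m v`, `m ∈ ℤ`.

In the starting results on recurrences (`UniformIterated`, `ContextFreeMatrixProducts`) ALL members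
of the sequence have to be points of `X`. Here the sequence is arbitrary and only its points on
`X` are considered; nothing is assumed about the set of the `m` which give points of `X`, and
the exponents of the generators of `Γ` in `u_j(m)` are arbitrary functions of `m`, for instance
`m ^ 2`, `m!` or integers near `m ^ (1 / 2)`, for `a(m) = m`.

Method: by the subspace theorem with moving targets (library folder `Y215/SK` of the starting
repository) a point of `X` of the form `∑ u_j V_j` is proportional to a partial sum over a set of
indices `j` such that the vector of the `u_j` has height at most `C (1 + h(V))`. So in this partial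
sum the ratios of the `u_j` take only finitely many values, and the points lie on finitely many
rational curves, each of which meets `X` in finitely many points. For orbits, the ratios of powers of
the eigenvalues are separated by the theorem of Kronecker.
-/

namespace Pool.Agent.Results.MP_627a61_nt.SkolemMahlerLech

open MvPolynomial Pool.Agent.TH717.GO Pool.Agent.H458.Sp Pool.Agent.R408.HSM Pool.Agent.R408.SML

theorem result (k : Type) [Field k] [NumberField k] (σ : k →+* ℂ) (n N : ℕ)
    (P : Fin N → MvPolynomial (Fin (n + 1)) k) (hP : ∀ i, ∃ e, (P i).IsHomogeneous e) :
    (BrodyHyperbolic ((MvPolynomial.map σ) '' Set.range P) → NoRatC σ (Set.range P)) ∧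
    List.TFAE [NoRatC σ (Set.range P), SequencesMeetFinitely P, OrbitsMeetFinitely P] := by
  refine ⟨brody_noRat σ P hP, ?_⟩
  tfae_have 1 → 2 := by
    intro hno _ Γ hΓ I r u p a hu hs
    exact seq_finite σ P hP hno Γ hΓ u hu p a hs
  tfae_have 2 → 3 := orb_finite P
  tfae_have 3 → 1 := orb_conv σ P
  tfae_finish

end Pool.Agent.Results.MP_627a61_nt.SkolemMahlerLech
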