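import Mathlib
import Pool.Agent.R408.HSM.Core

set_option autoImplicit false

/-!
# Multipliers of small height on hyperbolic varieties

(1) For all natural numbers `d` and `r` there are a number `ε > 0` and a number `M` such that for
every number field `k`, every embedding `σ` of `k` in `ℂ`, every `n` and every closed subset `X` of
projective `n`-space over `k` which is given by forms of degree at most `d` and such that `X_σ`
contains no nonconstant rational curve, in particular for every `X` such that `X_σ` is Brody
(equivalently Kobayashi) hyperbolic, the following holds. For every extension field `L` of `k`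
containing the algebraic numbers, and for ALL vectors `v_1, …, v_r` in `L ^ (n + 1)`, at most `M`
points of `X(L)` have homogeneous coordinates `t_1 v_1 + … + t_r v_r` with algebraic numbers `t_j`
such that the point `(t_1 : … : t_r)` has absolute logarithmic height less than `ε`, in particular
with roots of unity `t_j`.

There is no exceptional set, `X` need not be irreducible or smooth, the field `L` and the vectors
`v_j` are arbitrary (for instance transcendental), and neither `M` nor `ε` depends on the
hyperbolic variety `X`, on its dimension, on `n`, `k`, `σ`, `L` and the vectors.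

(2) Conversely, if `X_σ` contains a nonconstant rational curve, then for some `r` there are vectors
`v_1, …, v_r` of algebraic numbers such that infinitely many points of `X` have coordinates
`∑ ζ_j v_j` with roots of unity `ζ_j`.

Method: the uniform count of nondegenerate solutions of linear equations with coefficients in `L` in
multipliers of small height (library folder `Y215/SP` of the starting repository) gives, applied to
the monomials of the equations of `X`, a rational curve with `r` terms on `X` through each of the
points but at most `M`; for the other direction a complex rational curve is specialised to one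
over a number field.
-/

namespace Pool.Agent.Results.MP_627a61_nt.SmallMultipliers

open MvPolynomial Pool.Agent.Helper259.AbsHt Pool.Agent.H533R3.SL Pool.Agent.Y215.SP
  Pool.Agent.TH717.GO Pool.Agent.H458.Sp Pool.Agent.R408.HSM

theorem result :
    (∀ d r : ℕ, ∃ ε : ℝ, 0 < ε ∧ ∃ M : ℕ, ∀ (k : Type) [Field k] [NumberField k] (σ : k →+* ℂ)
      (n N : ℕ) (P : Fin N → MvPolynomial (Fin (n + 1)) k),
      (∀ i, ∃ e, e ≤ d ∧ (P i).IsHomogeneous e) →
      (BrodyHyperbolic ((MvPolynomial.map σ) '' Set.range P) → NoRatC σ (Set.range P)) ∧
      (NoRatC σ (Set.range P) →
        ∀ (L : Type) [Field L] [Algebra k L] (ι : Qbar →+* L) (v : Fin r → Fin (n + 1) → L),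
          (smallPts ι P ε v).encard ≤ M)) ∧
    (∀ (k : Type) [Field k] [NumberField k] (σ : k →+* ℂ) (n N : ℕ)
      (P : Fin N → MvPolynomial (Fin (n + 1)) k), ¬ NoRatC σ (Set.range P) →
      ∃ (r : ℕ) (_ : Algebra k Qbar) (v : Fin r → Fin (n + 1) → Qbar), (torsPts P v).Infinite) := by
  refine ⟨fun d r => ⟨epsn ((d + 1 + 1) ^ r) / (d + 1 : ℕ), ?_,
    2 ^ r * M0 ((d + 1 + 1) ^ r) (d + 1) r, fun k _ _ σ n N P hP => ⟨?_, ?_⟩⟩,
    fun k _ _ σ n N P h => tors_conv σ P h⟩
  · exact div_pos (epsn_pos _ (Nat.one_le_pow _ _ (by omega))) (by positivity)
  · exact brody_noRat σ P fun i => (hP i).imp fun e he => he.2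
  · intro hno L _ _ ι v
    exact small_bound σ P (d + 1) (by omega)
      (fun i => (hP i).imp fun e he => ⟨he.1.trans (Nat.le_succ d), he.2⟩) hno ι v

end Pool.Agent.Results.MP_627a61_nt.SmallMultipliers
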